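import Pool.Agent.Helper62.PW.W
import Pool.Agent.Helper95.PN.Stmts

/-! Row INN2 of the sheet PN. -/

set_option autoImplicit false

namespace Pool.Agent.Helper31.PNINN

open MeasureTheory Filter Topology Pool.Agent.Helper95.PW

theorem ev_pd {f g : R3 → ℝ} {y : R3} (h : f =ᶠ[𝓝 y] g) (i : Fin 3) :
    pd i f =ᶠ[𝓝 y] pd i g := by
  have h1 : fderiv ℝ f =ᶠ[𝓝 y] fderiv ℝ g := h.fderiv
  filter_upwards [h1] with z hz
  unfold pd
  rw [hz]

theorem ev_lap {f g : R3 → ℝ} {y : R3} (h : f =ᶠ[𝓝 y] g) : lap f =ᶠ[𝓝 y] lap g := by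
  filter_upwards [ev_pd (ev_pd h 0) 0, ev_pd (ev_pd h 1) 1, ev_pd (ev_pd h 2) 2] with z h0 h1 h2
  unfold lap
  rw [Fin.sum_univ_three, Fin.sum_univ_three, h0, h1, h2]

theorem nr2 (y : R3) : nr y ^ 2 = y 0 ^ 2 + y 1 ^ 2 + y 2 ^ 2 := by
  unfold nr
  exact Real.sq_sqrt (by positivity)

theorem ev_mg {d s : ℝ} {y : R3} (hd : 0 < d) (hy : nr y < 7 / 10 * d) :
    mg d s =ᶠ[𝓝 y] WF.wf s := by
  have ho : IsOpen {z : R3 | nr z < 7 / 10 * d} := by
    have hc : Continuous nr := by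
      unfold nr
      fun_prop
    exact isOpen_lt hc continuous_const
  filter_upwards [ho.mem_nhds hy] with z hz
  have hz' : nr z < 7 / 10 * d := hz
  have h0 : 0 ≤ nr z := Real.sqrt_nonneg _
  have h1 : nr z ^ 2 ≤ (7 / 10 * d) ^ 2 := by gcongr
  rw [nr2] at h1
  unfold mg
  have h2 : Real.smoothTransition (2 - 2 * (z 0 ^ 2 + z 1 ^ 2 + z 2 ^ 2) / d ^ 2) = 1 := by
    refine Real.smoothTransition.one_of_one_le ?_
    have h3 : 2 * (z 0 ^ 2 + z 1 ^ 2 + z 2 ^ 2) / d ^ 2 ≤ 1 := by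
      rw [div_le_one (by positivity)]
      nlinarith
    linarith
  rw [h2, mul_one]
  rfl

theorem all : ST_INN2 := by
  intro d s y hs hd hy
  have h := ev_mg (s := s) hd hy
  have hn : Real.sqrt (nr y ^ 2 + s ^ 2) = WF.wf s y := by
    rw [nr2]
    rfl
  refine ⟨fun i => ?_, fun i l => ?_, ?_⟩
  · rw [(ev_pd h i).eq_of_nhds, WF.pd_wf s hs, hn]
    simp only [WF.vf]
    rw [div_eq_mul_inv]
  · rw [(ev_pd (ev_pd h l) i).eq_of_nhds, WF.pd2_wf s hs, hn]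
    simp only [WF.vf]
    rw [div_eq_mul_inv, div_eq_mul_inv, inv_pow]
    ring
  · rw [(ev_lap (ev_lap h)).eq_of_nhds, WF.lap_lap_mor s hs]
    ring

end Pool.Agent.Helper31.PNINN

namespace Pool.Agent.Helper95.PW

theorem st_INN2 : ST_INN2 := Pool.Agent.Helper31.PNINN.all

end Pool.Agent.Helper95.PW
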